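import Pool.Agent.H32.SAB.TargetsT

/-! Row PTIH of qcf_modules: totally isotropic subspaces and hyperbolic planes. -/

set_option autoImplicit false

open Polynomial Matrix Pool.Agent.H32.SAB

namespace Pool.Agent.H44.SAB

section

variable {F : Type*} [Field F] {n : ℕ}

/-- the first hyperbolic coordinate -/
def va (v : Fin (2 + n) → F) : F := v (finSumFinEquiv (Sum.inl 0))

/-- the second hyperbolic coordinate -/
def vb (v : Fin (2 + n) → F) : F := v (finSumFinEquiv (Sum.inl 1))

/-- the rest -/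
def vw (v : Fin (2 + n) → F) : Fin n → F := fun i => v (finSumFinEquiv (Sum.inr i))

/-- a vector with given parts -/
def mk3 (a b : F) (w : Fin n → F) : Fin (2 + n) → F :=
  fun k => Sum.elim ![a, b] w (finSumFinEquiv.symm k)

theorem va_mk (a b : F) (w : Fin n → F) : va (mk3 a b w) = a := by
  unfold va mk3
  rw [Equiv.symm_apply_apply]
  rfl

theorem vb_mk (a b : F) (w : Fin n → F) : vb (mk3 a b w) = b := by
  unfold vb mk3
  rw [Equiv.symm_apply_apply]
  rfl

theorem vw_mk (a b : F) (w : Fin n → F) : vw (mk3 a b w) = w := by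
  funext i
  unfold vw mk3
  rw [Equiv.symm_apply_apply]
  rfl

theorem eq_mk (v : Fin (2 + n) → F) : v = mk3 (va v) (vb v) (vw v) := by
  funext k
  obtain ⟨s, rfl⟩ := finSumFinEquiv.surjective k
  unfold mk3 va vb vw
  rw [Equiv.symm_apply_apply]
  rcases s with s | s
  · fin_cases s <;> rfl
  · rfl

theorem va_sum {r : ℕ} (c : Fin r → F) (b : Fin r → Fin (2 + n) → F) :
    va (∑ i, c i • b i) = ∑ i, c i * va (b i) := by
  unfold va
  rw [Finset.sum_apply]
  rfl

theorem vb_sum {r : ℕ} (c : Fin r → F) (b : Fin r → Fin (2 + n) → F) :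
    vb (∑ i, c i • b i) = ∑ i, c i * vb (b i) := by
  unfold vb
  rw [Finset.sum_apply]
  rfl

theorem vw_sum {r : ℕ} (c : Fin r → F) (b : Fin r → Fin (2 + n) → F) :
    vw (∑ i, c i • b i) = ∑ i, c i • vw (b i) := by
  funext j
  unfold vw
  rw [Finset.sum_apply, Finset.sum_apply]
  rfl

theorem hyp_form (B : Matrix (Fin n) (Fin n) F) (u v : Fin (2 + n) → F) :
    u ⬝ᵥ hyp B *ᵥ v = va u * vb v + vb u * va v + vw u ⬝ᵥ B *ᵥ vw v := by
  have hs : ∀ f : Fin (2 + n) → F, ∑ k, f k =
      f (finSumFinEquiv (Sum.inl 0)) + f (finSumFinEquiv (Sum.inl 1)) +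
        ∑ i : Fin n, f (finSumFinEquiv (Sum.inr i)) := by
    intro f
    rw [← finSumFinEquiv.sum_comp, Fintype.sum_sum_type, Fin.sum_univ_two]
  have hh : ∀ s t : Fin 2 ⊕ Fin n, hyp B (finSumFinEquiv s) (finSumFinEquiv t) =
      Matrix.fromBlocks !![0, 1; 1, 0] 0 0 B s t := by
    intro s t
    unfold hyp
    rw [Matrix.reindex_apply, Matrix.submatrix_apply, Equiv.symm_apply_apply,
      Equiv.symm_apply_apply]
  have h1 : ∀ k, (hyp B *ᵥ v) k = ∑ l, hyp B k l * v l := fun k => rfl
  have h2 : u ⬝ᵥ hyp B *ᵥ v = ∑ k, u k * (hyp B *ᵥ v) k := rfl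
  rw [h2, hs]
  simp only [h1, hs, hh]
  unfold va vb vw
  simp [Matrix.mulVec, dotProduct]

theorem hyp_symm (B : Matrix (Fin n) (Fin n) F) (hB : B.IsSymm) : (hyp B).IsSymm := by
  unfold hyp
  rw [Matrix.reindex_apply]
  refine Matrix.IsSymm.submatrix (Matrix.IsSymm.fromBlocks ?_ ?_ hB) _
  · ext i j
    fin_cases i <;> fin_cases j <;> rfl
  · simp

end

theorem pf_TIH (hEXC : T_EXC) : T_TIH := by
  intro F _ _ n r B hB
  have he0 : (mk3 1 0 0 : Fin (2 + n) → F) ≠ 0 := by
    intro h
    have h1 : va (mk3 1 0 0 : Fin (2 + n) → F) = 0 := by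
      rw [h]
      rfl
    rw [va_mk] at h1
    exact one_ne_zero h1
  constructor
  · intro h
    obtain ⟨b, hb0, hbi, hbz⟩ := hEXC F (2 + n) r (hyp B) (hyp_symm B hB) h (mk3 1 0 0) he0 (by
      rw [hyp_form, va_mk, vb_mk, vw_mk]
      simp)
    have hβ : ∀ i, vb (b i) = 0 := by
      intro i
      have h1 := hbz 0 i
      rw [hb0, hyp_form, va_mk, vb_mk, vw_mk] at h1
      simpa using h1
    refine ⟨fun i => vw (b i.succ), ?_, ?_⟩
    · rw [Fintype.linearIndependent_iff]
      intro c hc i
      obtain ⟨s, hs⟩ : ∃ s, s = ∑ i, c i • b (Fin.succ i) := ⟨_, rfl⟩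
      have hsb : vb s = 0 := by
        rw [hs, vb_sum]
        refine Finset.sum_eq_zero fun i _ => ?_
        rw [hβ, mul_zero]
      have hsw : vw s = 0 := by
        rw [hs, vw_sum]
        exact hc
      have hs2 : s = va s • b 0 := by
        rw [hb0]
        conv_lhs => rw [eq_mk s, hsb, hsw]
        rw [eq_mk (va s • (mk3 1 0 0 : Fin (2 + n) → F))]
        congr 1
        · have : va (va s • (mk3 1 0 0 : Fin (2 + n) → F)) =
            va s * va (mk3 1 0 0 : Fin (2 + n) → F) := rfl
          rw [this, va_mk, mul_one]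
        · have : vb (va s • (mk3 1 0 0 : Fin (2 + n) → F)) =
            va s * vb (mk3 1 0 0 : Fin (2 + n) → F) := rfl
          rw [this, vb_mk, mul_zero]
        · have : vw (va s • (mk3 1 0 0 : Fin (2 + n) → F)) =
            va s • vw (mk3 1 0 0 : Fin (2 + n) → F) := rfl
          rw [this, vw_mk, smul_zero]
      rw [Fintype.linearIndependent_iff] at hbi
      have h3 := hbi (Fin.cons (-(va s)) c) (by
        rw [Fin.sum_univ_succ]
        simp only [Fin.cons_zero, Fin.cons_succ]
        rw [← hs, neg_smul, ← hs2, neg_add_cancel]) i.succ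
      rwa [Fin.cons_succ] at h3
    · intro i j
      have h1 := hbz i.succ j.succ
      rw [hyp_form, hβ, hβ] at h1
      simpa using h1
  · rintro ⟨b, hbi, hbz⟩
    refine ⟨Fin.cons (mk3 1 0 0) fun i => mk3 0 0 (b i), ?_, ?_⟩
    · rw [Fintype.linearIndependent_iff]
      intro c hc
      rw [Fintype.linearIndependent_iff] at hbi
      have h0 : c 0 = 0 := by
        have h1 := congrArg va hc
        rw [va_sum, Fin.sum_univ_succ] at h1
        simp only [Fin.cons_zero, Fin.cons_succ, va_mk, mul_one, mul_zero,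
          Finset.sum_const_zero, add_zero] at h1
        exact h1
      have h1 : ∀ i : Fin r, c i.succ = 0 := by
        have h2 := congrArg vw hc
        rw [vw_sum, Fin.sum_univ_succ] at h2
        simp only [Fin.cons_zero, Fin.cons_succ, vw_mk, smul_zero, zero_add] at h2
        exact hbi (fun i => c i.succ) h2
      intro i
      refine Fin.cases h0 h1 i
    · intro i j
      rw [hyp_form]
      refine Fin.cases ?_ (fun i => ?_) i <;> refine Fin.cases ?_ (fun j => ?_) j <;>
        simp only [Fin.cons_zero, Fin.cons_succ, va_mk, vb_mk, vw_mk]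
      · simp
      · simp
      · simp
      · rw [hbz]
        simp

end Pool.Agent.H44.SAB
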