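import Pool.Agent.H32.SAB.Targets

/-! Row PSPR of qcf_modules: the theorem of Springer. -/

set_option autoImplicit false

open Polynomial Matrix Pool.Agent.H32.SAB

namespace Pool.Agent.H44.SAB

theorem map_qv {R S : Type*} [CommRing R] [CommRing S] (f : R →+* S) {n : ℕ}
    (A : Matrix (Fin n) (Fin n) R) (x : Fin n → R) :
    f (qv A x) = qv (A.map f) (fun i => f (x i)) := by
  unfold qv
  rw [map_sum]
  refine Finset.sum_congr rfl fun i _ => ?_
  rw [map_sum]
  refine Finset.sum_congr rfl fun j _ => ?_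
  rw [map_mul, map_mul, Matrix.map_apply]

theorem qv_smul {R : Type*} [CommRing R] {n : ℕ} (A : Matrix (Fin n) (Fin n) R) (x : Fin n → R)
    (c : R) : qv A (fun i => c * x i) = c ^ 2 * qv A x := by
  unfold qv
  rw [Finset.mul_sum]
  refine Finset.sum_congr rfl fun i _ => ?_
  rw [Finset.mul_sum]
  refine Finset.sum_congr rfl fun j _ => ?_
  ring

/-- a polynomial of odd degree has an irreducible factor of odd degree -/
theorem odd_factor {F : Type*} [Field F] : ∀ (N : ℕ) (h : F[X]), h.natDegree ≤ N → h ≠ 0 →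
    Odd h.natDegree → ∃ q, Irreducible q ∧ q ∣ h ∧ Odd q.natDegree := by
  intro N
  induction N with
  | zero =>
    intro h h1 _ h3
    have h4 : h.natDegree = 0 := by omega
    rw [h4] at h3
    exact absurd h3 (by decide)
  | succ N ih =>
    intro h h1 h2 h3
    have hpos : 0 < h.natDegree := h3.pos
    obtain ⟨q, hq, k, rfl⟩ := WfDvdMonoid.exists_irreducible_factor
      (fun hu => hpos.ne' (natDegree_eq_zero_of_isUnit hu)) h2
    by_cases hodd : Odd q.natDegree
    · exact ⟨q, hq, dvd_mul_right _ _, hodd⟩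
    · have hk : k ≠ 0 := right_ne_zero_of_mul h2
      have hd : (q * k).natDegree = q.natDegree + k.natDegree := natDegree_mul hq.ne_zero hk
      have hq1 : 0 < q.natDegree := hq.natDegree_pos
      rw [hd] at h1 h3
      have hk3 : Odd k.natDegree := by
        rw [Nat.not_odd_iff_even] at hodd
        obtain ⟨a, ha⟩ := hodd
        obtain ⟨b, hb⟩ := h3
        exact ⟨b - a, by omega⟩
      obtain ⟨r, hr1, hr2, hr3⟩ := ih k (by omega) hk hk3
      exact ⟨r, hr1, hr2.mul_left q, hr3⟩

theorem iso_of_dvd {F : Type} [Field F] {n : ℕ} (A : Matrix (Fin n) (Fin n) F) (p : F[X])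
    (v : Fin n → F[X]) (hv : ∃ i, ¬ p ∣ v i) (h : p ∣ qv (A.map C) v) :
    IsoM A (AdjoinRoot p) := by
  refine ⟨fun i => AdjoinRoot.mk p (v i), ?_, ?_⟩
  · intro h0
    obtain ⟨i, hi⟩ := hv
    exact hi (AdjoinRoot.mk_eq_zero.1 (congrFun h0 i))
  · have h1 : AdjoinRoot.mk p (qv (A.map C) v) = 0 := AdjoinRoot.mk_eq_zero.2 h
    rw [map_qv, Matrix.map_map] at h1
    exact h1

theorem dvd_of_iso {F : Type} [Field F] {n : ℕ} (A : Matrix (Fin n) (Fin n) F) (p : F[X])
    (hp : p.natDegree ≠ 0) (h : IsoM A (AdjoinRoot p)) : ∃ v : Fin n → F[X], v ≠ 0 ∧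
      (∀ i, (v i).natDegree ≤ p.natDegree - 1) ∧ p ∣ qv (A.map C) v := by
  obtain ⟨x, hx, hx'⟩ := h
  choose u hu using fun i => AdjoinRoot.mk_surjective (x i)
  have hmk : ∀ i, AdjoinRoot.mk p (u i % p) = x i := by
    intro i
    rw [← hu i, ← sub_eq_zero, ← map_sub, AdjoinRoot.mk_eq_zero]
    have h1 := EuclideanDomain.mod_add_div (u i) p
    refine ⟨-(u i / p), ?_⟩
    linear_combination h1
  refine ⟨fun i => u i % p, ?_, ?_, ?_⟩
  · intro h0
    refine hx (funext fun i => ?_)
    have h1 := congrFun h0 i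
    have h2 := hmk i
    rw [h1] at h2
    rw [← h2]
    exact map_zero _
  · intro i
    have := natDegree_mod_lt (u i) hp
    show (u i % p).natDegree ≤ _
    omega
  · rw [← AdjoinRoot.mk_eq_zero, map_qv, Matrix.map_map]
    simp only [hmk]
    exact hx'

theorem main_step {F : Type} [Field F] {n : ℕ} (A : Matrix (Fin n) (Fin n) F)
    (hA : ¬ IsoM A F) : ∀ (N : ℕ) (p : F[X]), p.natDegree ≤ N → Irreducible p →
      Odd p.natDegree → ¬ IsoM A (AdjoinRoot p) := by
  classical
  intro N
  induction N with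
  | zero =>
    intro p h1 _ h3
    have h4 : p.natDegree = 0 := by omega
    rw [h4] at h3
    exact absurd h3 (by decide)
  | succ N ih =>
    intro p hpN hp hodd hiso
    have hpos : 0 < p.natDegree := hodd.pos
    have hP := dvd_of_iso A p hpos.ne' hiso
    have hex : ∃ m : ℕ, ∃ v : Fin n → F[X], v ≠ 0 ∧ (∀ i, (v i).natDegree ≤ m) ∧
        p ∣ qv (A.map C) v := ⟨_, hP⟩
    obtain ⟨m, hm⟩ : ∃ m, m = Nat.find hex := ⟨_, rfl⟩
    have hmin : ∀ m' : ℕ, (∃ v : Fin n → F[X], v ≠ 0 ∧ (∀ i, (v i).natDegree ≤ m') ∧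
        p ∣ qv (A.map C) v) → m ≤ m' := fun m' h => by
      rw [hm]
      exact Nat.find_min' hex h
    obtain ⟨v, hv0, hvm, hvp⟩ : ∃ v : Fin n → F[X], v ≠ 0 ∧ (∀ i, (v i).natDegree ≤ m) ∧
        p ∣ qv (A.map C) v := by
      rw [hm]
      exact Nat.find_spec hex
    have hmp : m ≤ p.natDegree - 1 := hmin _ hP
    -- no common factor
    have hcop : ∀ f : F[X], Irreducible f → ∃ i, ¬ f ∣ v i := by
      intro f hf
      by_contra hall
      push Not at hall
      choose u hu using hall
      have hf1 : 0 < f.natDegree := hf.natDegree_pos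
      obtain ⟨i0, hi0⟩ : ∃ i, v i ≠ 0 := by
        by_contra hn
        push Not at hn
        exact hv0 (funext hn)
      have hfm : f.natDegree ≤ m :=
        (natDegree_le_of_dvd ⟨u i0, hu i0⟩ hi0).trans (hvm i0)
      have hvf : v = fun i => f * u i := funext hu
      have hu0 : u ≠ 0 := by
        rintro rfl
        refine hv0 ?_
        rw [hvf]
        funext i
        simp
      have hum : ∀ i, (u i).natDegree ≤ m - 1 := by
        intro i
        by_cases hi : u i = 0
        · rw [hi, natDegree_zero]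
          omega
        · have h1 := hvm i
          rw [hu i, natDegree_mul hf.ne_zero hi] at h1
          omega
      have hup : p ∣ qv (A.map C) u := by
        rw [hvf, qv_smul] at hvp
        rcases hp.prime.dvd_or_dvd hvp with h | h
        · exfalso
          have h2 := natDegree_le_of_dvd (hp.prime.dvd_of_dvd_pow h) hf.ne_zero
          omega
        · exact h
      have := hmin (m - 1) ⟨u, hu0, hum, hup⟩
      omega
    -- the leading coefficients
    obtain ⟨w, hw⟩ : ∃ w : Fin n → F, ∀ i, w i = (v i).coeff m := ⟨_, fun _ => rfl⟩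
    have hw0 : w ≠ 0 := by
      rintro rfl
      have hc : ∀ i, (v i).coeff m = 0 := fun i => (hw i).symm
      rcases Nat.eq_zero_or_pos m with h0 | h0
      · refine hv0 (funext fun i => ?_)
        have h1 := hvm i
        rw [h0] at h1
        have h2 := eq_C_of_natDegree_le_zero h1
        have h3 := hc i
        rw [h0] at h3
        rw [h2, h3]
        simp
      · have := hmin (m - 1) ⟨v, hv0, fun i => natDegree_le_pred (hvm i) (hc i), hvp⟩
        omega
    have hcoef : (qv (A.map C) v).coeff (m + m) = qv A w := by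
      unfold qv
      rw [finsetSum_coeff]
      refine Finset.sum_congr rfl fun i _ => ?_
      rw [finsetSum_coeff]
      refine Finset.sum_congr rfl fun j _ => ?_
      rw [Matrix.map_apply, mul_assoc, coeff_C_mul, coeff_mul_add_eq_of_natDegree_le (hvm i) (hvm j), hw,
        hw, mul_assoc]
    have hQw : qv A w ≠ 0 := by
      intro h
      refine hA ⟨w, hw0, ?_⟩
      have h1 : A.map (algebraMap F F) = A := by
        ext i j
        rfl
      rw [h1]
      exact h
    have hdeg : (qv (A.map C) v).natDegree ≤ m + m := by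
      unfold qv
      refine natDegree_sum_le_of_forall_le _ _ fun i _ => ?_
      refine natDegree_sum_le_of_forall_le _ _ fun j _ => ?_
      rw [Matrix.map_apply, mul_assoc]
      refine (natDegree_C_mul_le _ _).trans (natDegree_mul_le.trans ?_)
      exact Nat.add_le_add (hvm i) (hvm j)
    have hdeg' : (qv (A.map C) v).natDegree = m + m :=
      le_antisymm hdeg (le_natDegree_of_ne_zero (by rw [hcoef]; exact hQw))
    have hQ0 : qv (A.map C) v ≠ 0 := by
      intro h
      rw [h, coeff_zero] at hcoef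
      exact hQw hcoef.symm
    obtain ⟨h, hh⟩ := hvp
    have hh0 : h ≠ 0 := by
      rintro rfl
      rw [mul_zero] at hh
      exact hQ0 hh
    have hdh : p.natDegree + h.natDegree = m + m := by
      rw [← natDegree_mul hp.ne_zero hh0, ← hh, hdeg']
    have hhodd : Odd h.natDegree := by
      obtain ⟨a, ha⟩ := hodd
      exact ⟨m - a - 1, by omega⟩
    obtain ⟨q, hq1, hq2, hq3⟩ := odd_factor _ h le_rfl hh0 hhodd
    have hqh : q.natDegree ≤ h.natDegree := natDegree_le_of_dvd hq2 hh0
    refine ih q (by omega) hq1 hq3 (iso_of_dvd A q v (hcop q hq1) ?_)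
    rw [hh]
    exact hq2.mul_left p

theorem pf_SPR : T_SPR := by
  intro F _ n A p hp hodd hiso
  by_contra hA
  exact main_step A hA _ p le_rfl hp hodd hiso

end Pool.Agent.H44.SAB
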